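import Pool.Agent.H852R2.TE.Defs
import Pool.Agent.H972R2.EX.REP

namespace TE852
open RC14 RC852 Finset Filter Equiv

namespace GFTaux

/-- the tail of a tuple -/
def tl {r n : ℕ} (z : Tup (r + 1) n) : Tup r n :=
  ⟨fun l => z l.succ, fun a b h => Fin.succ_injective _ (z.injective h)⟩

theorem tup_sum (n J : ℕ) (Z : ℝ) (hZ : 1 ≤ Z) (hn : 1 ≤ n) : ∀ (r : ℕ), 2 * r ≤ n →
    ∀ (H : Fin r → Finset (Fin n)), (∀ l, (H l).card ≤ J) →
    ∑ z : Tup r n, Z ^ (∑ l, if z l ∈ H l then 1 else 0) ≤
      (Fintype.card (Tup r n) : ℝ) * (1 + Z * (2 * J / n)) ^ r := by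
  classical
  have hn0 : (0 : ℝ) < n := by exact_mod_cast hn
  intro r
  induction r with
  | zero =>
    intro _ H _
    simp
  | succ r ih =>
    intro hr H hH
    have hZ0 : 0 ≤ Z := by linarith
    have ih' := ih (by omega) (fun l => H l.succ) (fun l => hH l.succ)
    rw [← Finset.sum_fiberwise (s := (univ : Finset (Tup (r + 1) n))) (g := tl)]
    have hinner : ∀ z' : Tup r n, ∑ z ∈ (univ : Finset (Tup (r + 1) n)) with tl z = z',
        Z ^ (∑ l, if z l ∈ H l then 1 else 0) ≤
        Z ^ (∑ l, if z' l ∈ H l.succ then 1 else 0) *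
          (((n - r : ℕ) : ℝ) * (1 + Z * (2 * J / n))) := by
      intro z'
      have h1 : ∀ z ∈ ((univ : Finset (Tup (r + 1) n)).filter (fun z => tl z = z')),
          Z ^ (∑ l, if z l ∈ H l then 1 else 0) =
          Z ^ (∑ l, if z' l ∈ H l.succ then 1 else 0) *
            (fun x : Fin n => Z ^ (if x ∈ H 0 then 1 else 0)) (z 0) := by
        intro z hz
        rw [Finset.mem_filter] at hz
        have hzl : ∀ l : Fin r, z l.succ = z' l := by
          intro l
          rw [← hz.2]
          rfl
        rw [Fin.sum_univ_succ, pow_add, mul_comm]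
        simp only [hzl]
      rw [Finset.sum_congr rfl h1, ← Finset.mul_sum]
      apply mul_le_mul_of_nonneg_left _ (pow_nonneg hZ0 _)
      have hinj : Set.InjOn (fun z : Tup (r + 1) n => z 0)
          ((univ : Finset (Tup (r + 1) n)).filter (fun z => tl z = z') : Set (Tup (r + 1) n)) := by
        intro z hz w hw h
        rw [Finset.mem_coe, Finset.mem_filter] at hz hw
        apply DFunLike.ext
        intro l
        refine Fin.cases h (fun i => ?_) l
        have h2 : (tl z) i = (tl w) i := by rw [hz.2, hw.2]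
        exact h2
      rw [← Finset.sum_image (f := fun x : Fin n => Z ^ (if x ∈ H 0 then 1 else 0))
        (g := fun z : Tup (r + 1) n => z 0) hinj]
      have hsub : ((univ : Finset (Tup (r + 1) n)).filter (fun z => tl z = z')).image
          (fun z : Tup (r + 1) n => z 0) ⊆ (univ.map z')ᶜ := by
        intro x hx
        rw [Finset.mem_image] at hx
        obtain ⟨z, hz, rfl⟩ := hx
        rw [Finset.mem_filter] at hz
        rw [Finset.mem_compl, Finset.mem_map]
        rintro ⟨l, _, hl⟩
        rw [← hz.2] at hl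
        have h3 : z l.succ = z 0 := hl
        exact absurd (z.injective h3) (Fin.succ_ne_zero l)
      have hcard : ((univ.map z')ᶜ : Finset (Fin n)).card = n - r := by
        rw [Finset.card_compl, Finset.card_map, Finset.card_univ, Fintype.card_fin,
          Fintype.card_fin]
      calc _ ≤ ∑ x ∈ (univ.map z')ᶜ, Z ^ (if x ∈ H 0 then 1 else 0) :=
            Finset.sum_le_sum_of_subset_of_nonneg hsub (fun x _ _ => pow_nonneg hZ0 _)
        _ ≤ ∑ x ∈ (univ.map z')ᶜ, (1 + if x ∈ H 0 then Z else 0) := by
            apply Finset.sum_le_sum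
            intro x _
            split_ifs
            · simp
            · simp
        _ = ((n - r : ℕ) : ℝ) + ∑ x ∈ (univ.map z')ᶜ, (if x ∈ H 0 then Z else 0) := by
            rw [Finset.sum_add_distrib, Finset.sum_const, hcard, nsmul_eq_mul, mul_one]
        _ ≤ ((n - r : ℕ) : ℝ) + Z * J := by
            have h4 : ∑ x ∈ (univ.map z')ᶜ, (if x ∈ H 0 then Z else 0) ≤
                ∑ x : Fin n, (if x ∈ H 0 then Z else 0) := by
              apply Finset.sum_le_sum_of_subset_of_nonneg (Finset.subset_univ _)
              intro x _ _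
              split_ifs
              · exact hZ0
              · exact le_rfl
            have h5 : ∑ x : Fin n, (if x ∈ H 0 then Z else 0) = (H 0).card * Z := by
              rw [← Finset.sum_filter, Finset.sum_const, nsmul_eq_mul]
              congr 3
              ext x
              simp
            have h6 : ((H 0).card : ℝ) ≤ J := by exact_mod_cast hH 0
            have h7 : ((H 0).card : ℝ) * Z ≤ J * Z := mul_le_mul_of_nonneg_right h6 hZ0
            linarith
        _ ≤ _ := by
            have h8 : (n : ℝ) ≤ 2 * ((n - r : ℕ) : ℝ) := by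
              have : n ≤ 2 * (n - r) := by omega
              exact_mod_cast this
            have h9 : Z * J ≤ ((n - r : ℕ) : ℝ) * (Z * (2 * J / n)) := by
              have h10 : ((n - r : ℕ) : ℝ) * (Z * (2 * J / n)) =
                  (Z * J) * ((2 * ((n - r : ℕ) : ℝ)) / n) := by ring
              rw [h10]
              have h11 : 1 ≤ (2 * ((n - r : ℕ) : ℝ)) / n := by
                rw [le_div_iff₀ hn0]; linarith
              have h12 : 0 ≤ Z * J := by positivity
              nlinarith
            rw [mul_add, mul_one]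
            linarith
    calc _ ≤ ∑ z' : Tup r n, Z ^ (∑ l, if z' l ∈ H l.succ then 1 else 0) *
          (((n - r : ℕ) : ℝ) * (1 + Z * (2 * J / n))) := Finset.sum_le_sum (fun z' _ => hinner z')
      _ = (∑ z' : Tup r n, Z ^ (∑ l, if z' l ∈ H l.succ then 1 else 0)) *
          (((n - r : ℕ) : ℝ) * (1 + Z * (2 * J / n))) := by rw [Finset.sum_mul]
      _ ≤ ((Fintype.card (Tup r n) : ℝ) * (1 + Z * (2 * J / n)) ^ r) *
          (((n - r : ℕ) : ℝ) * (1 + Z * (2 * J / n))) :=
          mul_le_mul_of_nonneg_right ih' (by positivity)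
      _ = _ := by
          have h13 : (Fintype.card (Tup (r + 1) n) : ℝ) =
              ((n - r : ℕ) : ℝ) * (Fintype.card (Tup r n) : ℝ) := by
            rw [Fintype.card_embedding_eq, Fintype.card_embedding_eq, Fintype.card_fin,
              Fintype.card_fin, Fintype.card_fin, Nat.descFactorial_succ]
            push_cast
            ring
          rw [h13]
          ring

/-- one block -/
theorem block_sum (n q J r : ℕ) (hr : 2 * r ≤ n) (hn : 1 ≤ n) {K : Type*}
    [Fintype K] (g : K → Perm (Fin n)) (hg : MixT r g) (b : Fin q → Perm (Fin n))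
    (y : Tup r n) (Z : ℝ) (hZ : 1 ≤ Z) (E : Fin r → Finset (Fin q × Fin n))
    (hE : ∀ l, (E l).card ≤ J) :
    ∑ c : K × (Fin q × Bool), Z ^ (∑ l, if eid g b c (y l) ∈ E l then 1 else 0) ≤
      (Fintype.card (K × (Fin q × Bool)) : ℝ) * (2 * (1 + Z * (2 * J / n)) ^ r) := by
  classical
  have hZ0 : 0 ≤ Z := by linarith
  have hn0 : (0 : ℝ) < n := by exact_mod_cast hn
  rw [Fintype.sum_prod_type_right]
  have hstep : ∀ e : Fin q × Bool,
      ∑ k : K, Z ^ (∑ l, if eid g b (k, e) (y l) ∈ E l then 1 else 0) ≤
        2 * (Fintype.card K : ℝ) * (1 + Z * (2 * J / n)) ^ r := by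
    rintro ⟨i, s⟩
    set H : Fin r → Finset (Fin n) := fun l =>
      univ.filter (fun z => (i, if s then z else (b i)⁻¹ z) ∈ E l) with hHdef
    have hH : ∀ l, (H l).card ≤ J := by
      intro l
      refine le_trans ?_ (hE l)
      apply Finset.card_le_card_of_injOn (fun z => (i, if s then z else (b i)⁻¹ z))
      · intro z hz
        rw [Finset.mem_coe, hHdef, Finset.mem_filter] at hz
        exact hz.2
      · intro z _ w _ h
        cases s with
        | true => simpa using h
        | false => simpa using h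
    have hφ : ∀ k : K, (∑ l, if eid g b (k, (i, s)) (y l) ∈ E l then 1 else 0) =
        ∑ l, if (mv (g k) y) l ∈ H l then 1 else 0 := by
      intro k
      apply Finset.sum_congr rfl
      intro l _
      have : (eid g b (k, (i, s)) (y l) ∈ E l) ↔ ((mv (g k) y) l ∈ H l) := by
        rw [hHdef, Finset.mem_filter]
        simp only [Finset.mem_univ, true_and]
        rfl
      simp only [this]
    simp only [hφ]
    have hTup0 : 0 < Fintype.card (Tup r n) := by
      rw [Fintype.card_embedding_eq, Fintype.card_fin, Fintype.card_fin]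
      exact Nat.descFactorial_pos.mpr (by omega) |>.trans_le le_rfl
    have hTup : (0 : ℝ) < Fintype.card (Tup r n) := by exact_mod_cast hTup0
    rw [← Finset.sum_fiberwise (s := (univ : Finset K)) (g := fun k => mv (g k) y)]
    calc _ = ∑ z : Tup r n, ((univ.filter (fun k => mv (g k) y = z)).card : ℝ) *
          Z ^ (∑ l, if z l ∈ H l then 1 else 0) := by
          apply Finset.sum_congr rfl
          intro z _
          rw [← nsmul_eq_mul, ← Finset.sum_const]
          apply Finset.sum_congr rfl
          intro k hk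
          rw [Finset.mem_filter] at hk
          rw [hk.2]
      _ ≤ ∑ z : Tup r n, (2 * (Fintype.card K : ℝ) / Fintype.card (Tup r n)) *
          Z ^ (∑ l, if z l ∈ H l then 1 else 0) := by
          apply Finset.sum_le_sum
          intro z _
          apply mul_le_mul_of_nonneg_right _ (pow_nonneg hZ0 _)
          rw [le_div_iff₀ hTup]
          exact hg y z
      _ = (2 * (Fintype.card K : ℝ) / Fintype.card (Tup r n)) *
          ∑ z : Tup r n, Z ^ (∑ l, if z l ∈ H l then 1 else 0) := by rw [Finset.mul_sum]
      _ ≤ (2 * (Fintype.card K : ℝ) / Fintype.card (Tup r n)) *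
          ((Fintype.card (Tup r n) : ℝ) * (1 + Z * (2 * J / n)) ^ r) :=
          mul_le_mul_of_nonneg_left (tup_sum n J Z hZ hn r hr H hH) (by positivity)
      _ = _ := by
          field_simp
  calc _ ≤ ∑ e : Fin q × Bool, 2 * (Fintype.card K : ℝ) * (1 + Z * (2 * J / n)) ^ r :=
        Finset.sum_le_sum (fun e _ => hstep e)
    _ = _ := by
        rw [Finset.sum_const, Finset.card_univ, nsmul_eq_mul, Fintype.card_prod K]
        push_cast
        ring

theorem main (n q J r : ℕ) (hr : 2 * r ≤ n) (hn : 1 ≤ n) {K : Type*}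
    [Fintype K] (g : K → Perm (Fin n)) (hg : MixT r g) (b : Fin q → Perm (Fin n))
    (y : Tup r n) (Z : ℝ) (hZ : 1 ≤ Z) (j : ℕ) (hj : j ≤ J) :
    ∑ w : Fin j → K × (Fin q × Bool),
        Z ^ (∑ l, REPaux.rep g b (List.ofFn w) (y l)) ≤
      ((Fintype.card (K × (Fin q × Bool)) : ℝ) * (2 * (1 + Z * (2 * J / n)) ^ r)) ^ j := by
  classical
  have hZ0 : 0 ≤ Z := by linarith
  have hn' : (0 : ℝ) < n := by exact_mod_cast hn
  induction j with
  | zero =>
    simp [REPaux.rep, dst, edg]
  | succ j ih =>
    have ih' := ih (by omega)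
    rw [← Equiv.sum_comp (Fin.consEquiv (fun _ : Fin (j + 1) => K × (Fin q × Bool))),
      Fintype.sum_prod_type_right]
    have hstep : ∀ u : Fin j → K × (Fin q × Bool),
        ∑ c : K × (Fin q × Bool),
          Z ^ (∑ l, REPaux.rep g b (List.ofFn ((Fin.consEquiv
            (fun _ : Fin (j + 1) => K × (Fin q × Bool))) (c, u))) (y l)) ≤
          Z ^ (∑ l, REPaux.rep g b (List.ofFn u) (y l)) *
            ((Fintype.card (K × (Fin q × Bool)) : ℝ) * (2 * (1 + Z * (2 * J / n)) ^ r)) := by
      intro u
      set y' : Tup r n := mv ((List.ofFn u).map (blk g b)).prod y with hy'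
      have hy'l : ∀ l, posn g b (List.ofFn u) (y l) = y' l := fun l => rfl
      have h1 : ∀ c : K × (Fin q × Bool),
          Z ^ (∑ l, REPaux.rep g b (List.ofFn ((Fin.consEquiv
            (fun _ : Fin (j + 1) => K × (Fin q × Bool))) (c, u))) (y l)) =
          Z ^ (∑ l, REPaux.rep g b (List.ofFn u) (y l)) *
            Z ^ (∑ l, if eid g b c (y' l) ∈ (edg g b (List.ofFn u) (y l)).toFinset
              then 1 else 0) := by
        intro c
        have h2 : List.ofFn ((Fin.consEquiv (fun _ : Fin (j + 1) => K × (Fin q × Bool)))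
            (c, u)) = c :: List.ofFn u := by
          rw [List.ofFn_succ]
          simp [Fin.consEquiv]
        rw [h2, ← pow_add, ← Finset.sum_add_distrib]
        congr 1
        apply Finset.sum_congr rfl
        intro l _
        rw [REPaux.rep_cons, hy'l]
      simp only [h1]
      rw [← Finset.mul_sum]
      apply mul_le_mul_of_nonneg_left _ (pow_nonneg hZ0 _)
      apply block_sum n q J r hr hn g hg b y' Z hZ
      intro l
      calc (edg g b (List.ofFn u) (y l)).toFinset.card
          ≤ (edg g b (List.ofFn u) (y l)).length := List.toFinset_card_le _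
        _ = j := by rw [REPaux.edg_length, List.length_ofFn]
        _ ≤ J := by omega
    calc _ ≤ ∑ u : Fin j → K × (Fin q × Bool), Z ^ (∑ l, REPaux.rep g b (List.ofFn u) (y l)) *
            ((Fintype.card (K × (Fin q × Bool)) : ℝ) * (2 * (1 + Z * (2 * J / n)) ^ r)) :=
          Finset.sum_le_sum (fun u _ => hstep u)
      _ = (∑ u : Fin j → K × (Fin q × Bool), Z ^ (∑ l, REPaux.rep g b (List.ofFn u) (y l))) *
            ((Fintype.card (K × (Fin q × Bool)) : ℝ) * (2 * (1 + Z * (2 * J / n)) ^ r)) := by
          rw [Finset.sum_mul]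
      _ ≤ _ := by
          rw [pow_succ]
          exact mul_le_mul_of_nonneg_right ih' (by positivity)

end GFTaux

/-- generating function of the total number of repetitions along the trajectories of `r` points -/
theorem GFT (n q J r : ℕ) (hq : 1 ≤ q) (hJ : 1 ≤ J) (hr : 2 * r ≤ n) (hn : 1 ≤ n) {K : Type*}
    [Fintype K] [Nonempty K] (g : K → Perm (Fin n)) (hg : MixT r g) (b : Fin q → Perm (Fin n))
    (y : Tup r n) (Z : ℝ) (hZ : 1 ≤ Z) :
    ∑ w : Fin J → K × (Fin q × Bool),
        Z ^ (∑ l, ((List.ofFn w).length - dst g b (List.ofFn w) (y l))) ≤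
      ((Fintype.card (K × (Fin q × Bool)) : ℝ) * (2 * (1 + Z * (2 * J / n)) ^ r)) ^ J :=
  GFTaux.main n q J r hr hn g hg b y Z hZ J le_rfl

end TE852
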